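import Pool.Agent.W425.SI.Defs

set_option autoImplicit false
set_option linter.unusedSectionVars false

/-! # The functional equation of an ideal gives a functional equation of `∑ y_j f_j` -/

namespace Pool.Agent.W366.SI

open MvPolynomial Pool.Agent.W574.SM Pool.Agent.W574.HS

section

variable {σ ι : Type} [Fintype ι] [DecidableEq ι]

theorem hat_inj {G H : MvPolynomial (ι ⊕ σ) ℂ} (h : hat G = hat H) : G = H := by
  apply (sumAlgEquiv ℂ ι σ).injective
  ext1 α
  have h1 := congrFun h α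
  unfold hat at h1
  exact smul_right_injective (MvPolynomial σ ℂ)
    (by exact_mod_cast mfact_ne_zero α : (mfact α : ℂ) ≠ 0) h1

/-- the operators on families of polynomials which are induced by differential operators -/
def Lift (E : ((ι →₀ ℕ) → MvPolynomial σ ℂ) → (ι →₀ ℕ) → MvPolynomial σ ℂ) : Prop :=
  ∃ Q ∈ Pool.Agent.H628R4.TP.weylS (ι ⊕ σ), ∀ G, hat (Q G) = E (hat G)

theorem lift_id : Lift (σ := σ) (ι := ι) (fun H α => H α) :=
  ⟨1, one_mem _, fun _ => rfl⟩

theorem lift_zero : Lift (σ := σ) (ι := ι) (fun _ _ => 0) :=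
  ⟨0, zero_mem _, fun G => by
    funext α
    rw [LinearMap.zero_apply, hat, map_zero, coeff_zero, smul_zero]⟩

theorem lift_add {E1 E2 : ((ι →₀ ℕ) → MvPolynomial σ ℂ) → (ι →₀ ℕ) → MvPolynomial σ ℂ}
    (h1 : Lift E1) (h2 : Lift E2) : Lift (fun H α => E1 H α + E2 H α) := by
  obtain ⟨Q1, m1, h1⟩ := h1
  obtain ⟨Q2, m2, h2⟩ := h2
  refine ⟨Q1 + Q2, add_mem m1 m2, fun G => ?_⟩
  funext α
  rw [LinearMap.add_apply, hat_add, h1, h2]

theorem lift_smul {E : ((ι →₀ ℕ) → MvPolynomial σ ℂ) → (ι →₀ ℕ) → MvPolynomial σ ℂ}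
    (h : Lift E) (r : ℂ) : Lift (fun H α => r • E H α) := by
  obtain ⟨Q, m, h⟩ := h
  refine ⟨r • Q, Subalgebra.smul_mem _ m r, fun G => ?_⟩
  funext α
  rw [LinearMap.smul_apply, hat_smul, h]

theorem lift_sum {K : Type} (s : Finset K)
    (E : K → ((ι →₀ ℕ) → MvPolynomial σ ℂ) → (ι →₀ ℕ) → MvPolynomial σ ℂ)
    (h : ∀ k ∈ s, Lift (E k)) : Lift (fun H α => ∑ k ∈ s, E k H α) := by
  classical
  induction s using Finset.induction_on with
  | empty => simpa using lift_zero
  | insert k s hk ih =>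
    have := lift_add (h k (Finset.mem_insert_self k s))
      (ih fun l hl => h l (Finset.mem_insert_of_mem hl))
    simpa [Finset.sum_insert hk] using this

theorem lift_y {E : ((ι →₀ ℕ) → MvPolynomial σ ℂ) → (ι →₀ ℕ) → MvPolynomial σ ℂ}
    (h : Lift E) (j : ι) :
    Lift (fun H α => (α j : ℂ) • E H (α - Finsupp.single j 1)) := by
  obtain ⟨Q, m, h⟩ := h
  refine ⟨LinearMap.mulLeft ℂ (X (Sum.inl j) : MvPolynomial (ι ⊕ σ) ℂ) * Q,
    mul_mem (Algebra.subset_adjoin (Or.inl ⟨Sum.inl j, rfl⟩)) m, fun G => ?_⟩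
  funext α
  rw [Module.End.mul_apply, LinearMap.mulLeft_apply, hat_Xl, h]

theorem lift_dy {E : ((ι →₀ ℕ) → MvPolynomial σ ℂ) → (ι →₀ ℕ) → MvPolynomial σ ℂ}
    (h : Lift E) (j : ι) :
    Lift (fun H α => E H (α + Finsupp.single j 1)) := by
  obtain ⟨Q, m, h⟩ := h
  refine ⟨((pderiv (Sum.inl j) : Derivation ℂ (MvPolynomial (ι ⊕ σ) ℂ)
        (MvPolynomial (ι ⊕ σ) ℂ)) : MvPolynomial (ι ⊕ σ) ℂ →ₗ[ℂ] MvPolynomial (ι ⊕ σ) ℂ) * Q,
    mul_mem (Algebra.subset_adjoin (Or.inr ⟨Sum.inl j, rfl⟩)) m, fun G => ?_⟩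
  funext α
  rw [Module.End.mul_apply]
  exact (hat_dl j (Q G) α).trans (congrFun (h G) _)

theorem lift_theta {E : ((ι →₀ ℕ) → MvPolynomial σ ℂ) → (ι →₀ ℕ) → MvPolynomial σ ℂ}
    (h : Lift E) (j : ι) :
    Lift (fun H α => (α j : ℂ) • E H α) := by
  have h1 := lift_y (lift_dy h j) j
  have h2 : (fun (H : (ι →₀ ℕ) → MvPolynomial σ ℂ) (α : ι →₀ ℕ) => (α j : ℂ) •
      E H (α - Finsupp.single j 1 + Finsupp.single j 1)) = fun H α => (α j : ℂ) • E H α := by
    funext H α
    by_cases h0 : α j = 0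
    · rw [h0]; simp
    · rw [sub_add_single α j h0]
  rw [← h2]
  exact h1

theorem lift_poly (p : MvPolynomial ι ℂ) :
    ∀ E : ((ι →₀ ℕ) → MvPolynomial σ ℂ) → (ι →₀ ℕ) → MvPolynomial σ ℂ, Lift E →
    Lift (fun H α => evN α p • E H α) := by
  induction p using MvPolynomial.induction_on with
  | C a =>
    intro E hE
    have h := lift_smul hE a
    simpa [evN] using h
  | add p q hp hq =>
    intro E hE
    have h := lift_add (hp E hE) (hq E hE)
    simpa [evN, add_smul] using h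
  | mul_X p i hp =>
    intro E hE
    have h := hp _ (lift_theta hE i)
    simpa [evN, mul_smul] using h

theorem lift_weyl [DecidableEq σ] (Q : Module.End ℂ (MvPolynomial σ ℂ)) (hQ : Q ∈ weyl σ) :
    ∀ E : ((ι →₀ ℕ) → MvPolynomial σ ℂ) → (ι →₀ ℕ) → MvPolynomial σ ℂ, Lift E →
    Lift (fun H α => Q (E H α)) := by
  induction hQ using Algebra.adjoin_induction with
  | mem Q hQ =>
    intro E hE
    obtain ⟨R, m, h⟩ := hE
    rcases hQ with ⟨i, rfl⟩ | ⟨i, rfl⟩
    · refine ⟨LinearMap.mulLeft ℂ (X (Sum.inr i) : MvPolynomial (ι ⊕ σ) ℂ) * R,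
        mul_mem (Algebra.subset_adjoin (Or.inl ⟨Sum.inr i, rfl⟩)) m, fun G => ?_⟩
      funext α
      rw [Module.End.mul_apply, LinearMap.mulLeft_apply, hat_Xr, h]
      rfl
    · refine ⟨((pderiv (Sum.inr i) : Derivation ℂ (MvPolynomial (ι ⊕ σ) ℂ)
          (MvPolynomial (ι ⊕ σ) ℂ)) : MvPolynomial (ι ⊕ σ) ℂ →ₗ[ℂ] MvPolynomial (ι ⊕ σ) ℂ) * R,
        mul_mem (Algebra.subset_adjoin (Or.inr ⟨Sum.inr i, rfl⟩)) m, fun G => ?_⟩
      funext α
      rw [Module.End.mul_apply]
      exact (hat_dr i (R G) α).trans (by rw [h]; rfl)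
  | algebraMap r =>
    intro E hE
    have h := lift_smul hE r
    simpa [Module.algebraMap_end_apply] using h
  | add Q1 Q2 _ _ h1 h2 =>
    intro E hE
    exact lift_add (h1 E hE) (h2 E hE)
  | mul Q1 Q2 _ _ h1 h2 =>
    intro E hE
    exact h1 _ (h2 E hE)

/-- multi-index falling factorial -/
def dfac (α d : ι →₀ ℕ) : ℕ := ∏ j, (α j).descFactorial (d j)

theorem desc_add (n a b : ℕ) :
    n.descFactorial (a + b) = n.descFactorial a * (n - a).descFactorial b := by
  induction b with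
  | zero => simp
  | succ b ih =>
    rw [← add_assoc, Nat.descFactorial_succ, ih, Nat.descFactorial_succ, Nat.sub_sub]
    ring

theorem dfac_add (α d e : ι →₀ ℕ) : dfac α (d + e) = dfac α d * dfac (α - d) e := by
  unfold dfac
  rw [← Finset.prod_mul_distrib]
  refine Finset.prod_congr rfl fun j _ => ?_
  rw [Finsupp.add_apply, desc_add, Finsupp.tsub_apply]

theorem dfac_single (α : ι →₀ ℕ) (j : ι) : dfac α (Finsupp.single j 1) = α j := by
  unfold dfac
  rw [Finset.prod_eq_single j]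
  · simp
  · intro k _ hk
    rw [Finsupp.single_eq_of_ne hk]
    simp
  · simp

theorem lift_yd (d : ι →₀ ℕ) :
    ∀ E : ((ι →₀ ℕ) → MvPolynomial σ ℂ) → (ι →₀ ℕ) → MvPolynomial σ ℂ, Lift E →
    Lift (fun H α => (dfac α d : ℂ) • E H (α - d)) := by
  have hadd : ∀ d e : ι →₀ ℕ,
      (∀ E : ((ι →₀ ℕ) → MvPolynomial σ ℂ) → (ι →₀ ℕ) → MvPolynomial σ ℂ, Lift E →
        Lift (fun H α => (dfac α d : ℂ) • E H (α - d))) →
      (∀ E : ((ι →₀ ℕ) → MvPolynomial σ ℂ) → (ι →₀ ℕ) → MvPolynomial σ ℂ, Lift E →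
        Lift (fun H α => (dfac α e : ℂ) • E H (α - e))) →
      (∀ E : ((ι →₀ ℕ) → MvPolynomial σ ℂ) → (ι →₀ ℕ) → MvPolynomial σ ℂ, Lift E →
        Lift (fun H α => (dfac α (d + e) : ℂ) • E H (α - (d + e)))) := by
    intro d e hd he E hE
    have h := hd _ (he _ hE)
    have h2 : (fun (H : (ι →₀ ℕ) → MvPolynomial σ ℂ) (α : ι →₀ ℕ) =>
        (dfac α (d + e) : ℂ) • E H (α - (d + e))) =
        (fun H α => (dfac α d : ℂ) • (dfac (α - d) e : ℂ) • E H (α - d - e)) := by
      funext H α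
      rw [smul_smul, dfac_add, tsub_add_eq_tsub_tsub]
      push_cast
      rfl
    rw [h2]
    exact h
  have hzero : ∀ E : ((ι →₀ ℕ) → MvPolynomial σ ℂ) → (ι →₀ ℕ) → MvPolynomial σ ℂ, Lift E →
        Lift (fun H α => (dfac α 0 : ℂ) • E H (α - 0)) := by
    intro E hE
    simpa [dfac] using hE
  induction d using Finsupp.induction_linear with
  | zero => exact hzero
  | add d e hd he => exact hadd d e hd he
  | single j n =>
    induction n with
    | zero =>
      rw [Finsupp.single_zero]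
      exact hzero
    | succ n ih =>
      rw [Finsupp.single_add]
      refine hadd _ _ ih ?_
      intro E hE
      simp only [dfac_single]
      exact lift_y hE j

theorem lift_dyd (d : ι →₀ ℕ) :
    ∀ E : ((ι →₀ ℕ) → MvPolynomial σ ℂ) → (ι →₀ ℕ) → MvPolynomial σ ℂ, Lift E →
    Lift (fun H α => E H (α + d)) := by
  induction d using Finsupp.induction_linear with
  | zero =>
    intro E hE
    simpa using hE
  | add d e hd he =>
    intro E hE
    have h := hd _ (he _ hE)
    simpa only [add_assoc] using h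
  | single j n =>
    induction n with
    | zero =>
      intro E hE
      simpa using hE
    | succ n ih =>
      intro E hE
      have h := ih _ (lift_dy hE j)
      simpa only [add_assoc, ← Finsupp.single_add] using h

theorem lift_sh (c : ι → ℤ)
    {E : ((ι →₀ ℕ) → MvPolynomial σ ℂ) → (ι →₀ ℕ) → MvPolynomial σ ℂ} (hE : Lift E) :
    Lift (fun H α => (fall c α : ℂ) • E H (sh α c)) := by
  set dm : ι →₀ ℕ := Finsupp.equivFunOnFinite.symm fun j => (-c j).toNat with hdm
  set dp : ι →₀ ℕ := Finsupp.equivFunOnFinite.symm fun j => (c j).toNat with hdp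
  have h := lift_yd dm _ (lift_dyd dp _ hE)
  have h2 : (fun (H : (ι →₀ ℕ) → MvPolynomial σ ℂ) (α : ι →₀ ℕ) =>
        (fall c α : ℂ) • E H (sh α c)) =
        (fun H α => (dfac α dm : ℂ) • E H (α - dm + dp)) := by
    funext H α
    have h3 : fall c α = dfac α dm := rfl
    rw [h3]
    by_cases h0 : dfac α dm = 0
    · rw [h0]; simp
    · congr 2
      ext j
      rw [sh_apply, Finsupp.add_apply, Finsupp.tsub_apply]
      have h4 : dm j ≤ α j := by
        by_contra hlt
        push Not at hlt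
        refine h0 (Finset.prod_eq_zero (Finset.mem_univ j) ?_)
        rwa [Nat.descFactorial_eq_zero_iff_lt]
      have h5 : dm j = (-c j).toNat := rfl
      have h6 : dp j = (c j).toNat := rfl
      omega
  rw [h2]
  exact h

theorem taskI1' [DecidableEq σ] (f : ι → MvPolynomial σ ℂ) (b : Polynomial ℂ)
    (hb : IsFunctionalEq f b) :
    Pool.Agent.H628R4.TP.IsBFunction (univ f) ((Polynomial.X + 1) * b) := by
  classical
  obtain ⟨S, P, hS, hP⟩ := hb
  set cf : (ι → ℤ) → ℂ := fun c => ∏ j, (((-c j).toNat.factorial : ℕ) : ℂ) with hcf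
  have hcf0 : ∀ c, cf c ≠ 0 := by
    intro c
    rw [hcf]
    refine Finset.prod_ne_zero_iff.2 fun j _ => ?_
    exact_mod_cast Nat.factorial_ne_zero _
  have hfall : ∀ (c : ι → ℤ) (α : ι →₀ ℕ), (fall c α : ℂ) = cf c *
      ((∏ j, (if c j < 0 then (α j).choose (-c j).toNat else 1) : ℕ) : ℂ) := by
    intro c α
    have : fall c α = (∏ j, (-c j).toNat.factorial) *
        ∏ j, (if c j < 0 then (α j).choose (-c j).toNat else 1) := by
      rw [fall, ← Finset.prod_mul_distrib]
      refine Finset.prod_congr rfl fun j _ => ?_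
      split_ifs with h
      · rw [Nat.descFactorial_eq_factorial_mul_choose]
      · have h0 : (-c j).toNat = 0 := by omega
        rw [h0]; simp
    rw [this, hcf]
    push_cast
    rfl
  have hlift : Lift (fun (H : (ι →₀ ℕ) → MvPolynomial σ ℂ) α => ∑ c ∈ S, ∑ β ∈ (P c).support,
      evN α (monomial β 1) • (P c β : Module.End ℂ (MvPolynomial σ ℂ))
        ((cf c)⁻¹ • (fall c α : ℂ) • H (sh α c))) :=
    lift_sum S _ fun c _ => lift_sum _ _ fun β _ =>
      lift_poly _ _ (lift_weyl _ (P c β).2 _ (lift_smul (lift_sh c lift_id) _))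
  obtain ⟨Q, mQ, hQ⟩ := hlift
  refine ⟨Finsupp.single 0 ⟨Q, mQ⟩, fun s => ?_⟩
  rw [Finsupp.sum_single_index (by simp), pow_zero, one_smul]
  apply hat_inj
  rw [hQ]
  funext α
  rw [hat_C_mul, hat_univ_pow]
  have hsum : ∀ c ∈ S, fall c α ≠ 0 → ((∑ j, sh α c j = s + 1) ↔ (∑ j, α j = s)) := by
    intro c hc h0
    have hpos : ∀ j, 0 ≤ (α j : ℤ) + c j := by
      intro j
      by_contra hj
      refine h0 (Finset.prod_eq_zero (Finset.mem_univ j) ?_)
      rw [Nat.descFactorial_eq_zero_iff_lt]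
      omega
    have h1 : ((∑ j, sh α c j : ℕ) : ℤ) = (∑ j, α j : ℕ) + 1 := by
      rw [← hS c hc]
      push_cast
      rw [← Finset.sum_add_distrib]
      refine Finset.sum_congr rfl fun j _ => ?_
      rw [sh_apply, Int.toNat_of_nonneg (hpos j)]
    constructor
    · intro h
      rw [h] at h1
      have : ((s : ℕ) : ℤ) = ((∑ j, α j : ℕ) : ℤ) := by
        rw [Nat.cast_add, Nat.cast_one] at h1
        exact add_right_cancel h1
      exact_mod_cast this.symm
    · intro h
      rw [h] at h1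
      exact_mod_cast h1
  by_cases hα : ∑ j, α j = s
  · rw [if_pos hα]
    have hk := hP (fun j => α j)
    simp only [hα] at hk
    have hterm : ∀ c ∈ S, (∑ β ∈ (P c).support,
        evN α (monomial β 1) • (P c β : Module.End ℂ (MvPolynomial σ ℂ))
          ((cf c)⁻¹ • (fall c α : ℂ) • hat (univ f ^ (s + 1)) (sh α c))) =
        ((s + 1).factorial : ℂ) • applyAt (P c) (fun j => α j)
          (C ((∏ j, (if c j < 0 then (α j).choose (-c j).toNat else 1) : ℕ) : ℂ) *
            ∏ j, f j ^ ((α j : ℤ) + c j).toNat) := by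
      intro c hc
      rw [applyAt, Finsupp.sum, Finset.smul_sum]
      refine Finset.sum_congr rfl fun β _ => ?_
      have h1 : evN α (monomial β 1) = ∏ j, (α j : ℂ) ^ β j := by
        rw [evN, eval_monomial, one_mul, Finsupp.prod_fintype]
        intro i
        rw [pow_zero]
      have hin : (cf c)⁻¹ • (fall c α : ℂ) • hat (univ f ^ (s + 1)) (sh α c) =
          ((s + 1).factorial : ℂ) •
            (C ((∏ j, (if c j < 0 then (α j).choose (-c j).toNat else 1) : ℕ) : ℂ) *
              ∏ j, f j ^ ((α j : ℤ) + c j).toNat) := by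
        rw [hat_univ_pow]
        by_cases h0 : fall c α = 0
        · have h2 := hfall c α
          rw [h0, Nat.cast_zero] at h2
          have h3 := (mul_eq_zero.1 h2.symm).resolve_left (hcf0 c)
          rw [h0, h3]
          simp
        · rw [if_pos ((hsum c hc h0).2 hα), hfall, C_mul', smul_smul, smul_smul, smul_smul]
          have h4 : (∏ j, f j ^ (sh α c) j) = ∏ j, f j ^ ((α j : ℤ) + c j).toNat := rfl
          rw [h4]
          congr 1
          rw [mul_comm ((s + 1).factorial : ℂ), mul_assoc, mul_assoc, inv_mul_cancel_left₀ (hcf0 c)]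
      rw [hin, map_smul, h1, smul_comm]
    have hterm2 := Finset.sum_congr (rfl : S = S) hterm
    rw [← Finset.smul_sum, ← hk, C_mul'] at hterm2
    refine Eq.trans ?_ hterm2.symm
    rw [smul_smul, smul_smul]
    congr 1
    rw [Polynomial.eval_mul, Nat.factorial_succ]
    simp only [Polynomial.eval_add, Polynomial.eval_X, Polynomial.eval_one]
    push_cast
    ring
  · rw [if_neg hα, smul_zero]
    refine Eq.symm ?_
    refine Finset.sum_eq_zero fun c hc => Finset.sum_eq_zero fun β _ => ?_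
    by_cases h0 : fall c α = 0
    · rw [h0]; simp
    · rw [hat_univ_pow, if_neg fun h => hα ((hsum c hc h0).1 h)]
      simp

end

theorem taskI1 : Pool.Agent.W425.SI.TaskI1 := by
  intro σ ι _ _ _ f b hb
  exact taskI1' f b hb

end Pool.Agent.W366.SI
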